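import Pool.Agent.MP_5f72fe_nt.H3.SpecA

/-! Degrees of periodic functions modulo `3`. -/

set_option autoImplicit false

namespace Pool.Agent.MP_5f72fe_nt.H65

open Pool.Agent.MP_5f72fe_nt.H3

noncomputable section

abbrev Fn := ℤ × ℤ → ZMod 3

abbrev GA := AddMonoidAlgebra (ZMod 3) (ℤ × ℤ)

/-- shifts -/
def sh : Multiplicative (ℤ × ℤ) →* Module.End (ZMod 3) Fn where
  toFun v := LinearMap.funLeft (ZMod 3) (ZMod 3) fun w => w + v.toAdd
  map_one' := by ext ψ w; simp [LinearMap.funLeft_apply]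
  map_mul' u v := by ext ψ w; simp [LinearMap.funLeft_apply, add_assoc]

/-- the action of the group algebra -/
def rho : GA →ₐ[ZMod 3] Module.End (ZMod 3) Fn :=
  AddMonoidAlgebra.lift (ZMod 3) (Module.End (ZMod 3) Fn) (ℤ × ℤ) sh

/-- group elements -/
def tt (v : ℤ × ℤ) : GA := AddMonoidAlgebra.of (ZMod 3) (ℤ × ℤ) (Multiplicative.ofAdd v)

theorem rho_tt (v : ℤ × ℤ) (ψ : Fn) (w : ℤ × ℤ) : rho (tt v) ψ w = ψ (w + v) := by
  unfold rho tt
  rw [AddMonoidAlgebra.lift_of]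
  rfl

theorem tt_add (u v : ℤ × ℤ) : tt (u + v) = tt u * tt v := by
  unfold tt
  rw [ofAdd_add, map_mul]

theorem tt_zero : tt 0 = 1 := by
  unfold tt
  rw [ofAdd_zero, map_one]

theorem tt_pow (v : ℤ × ℤ) (n : ℕ) : tt v ^ n = tt (n • v) := by
  unfold tt
  rw [ofAdd_nsmul, map_pow]

def d1 : GA := tt (1, 0) - 1
def d2 : GA := tt (0, 1) - 1
def c1 : GA := tt (1, 0) - tt (-1, 0)
def c2 : GA := tt (0, 1) - tt (0, -1)

theorem rho_sub_one (v : ℤ × ℤ) (ψ : Fn) (w : ℤ × ℤ) :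
    rho (tt v - 1) ψ w = ψ (w + v) - ψ w := by
  rw [map_sub, map_one, LinearMap.sub_apply, Pi.sub_apply, rho_tt]; rfl

theorem rho_sub (u v : ℤ × ℤ) (ψ : Fn) (w : ℤ × ℤ) :
    rho (tt u - tt v) ψ w = ψ (w + u) - ψ (w + v) := by
  rw [map_sub, LinearMap.sub_apply, Pi.sub_apply, rho_tt, rho_tt]

theorem iter (a : GA) (f : Fn → Fn) (h : ∀ ψ, f ψ = rho a ψ) (i : ℕ) (ψ : Fn) :
    f^[i] ψ = rho (a ^ i) ψ := by
  rw [map_pow, Module.End.pow_apply, funext h]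

theorem df_eq (i j : ℕ) (ψ : Fn) : df1^[i] (df2^[j] ψ) = rho (d1 ^ i * d2 ^ j) ψ := by
  rw [iter d1 df1, iter d2 df2, map_mul, Module.End.mul_apply]
  · intro ψ; funext w; rw [d2, rho_sub_one, df2]; simp [Prod.add_def]
  · intro ψ; funext w; rw [d1, rho_sub_one, df1]; simp [Prod.add_def]

theorem cof_eq (i j : ℕ) (ψ : Fn) : cof i j ψ = rho (c1 ^ i * c2 ^ j) ψ 0 := by
  rw [cof, iter c1 dc1, iter c2 dc2, map_mul, Module.End.mul_apply]
  · rfl
  · intro ψ; funext w; rw [c2, rho_sub, dc2]; simp [Prod.add_def, sub_eq_add_neg]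
  · intro ψ; funext w; rw [c1, rho_sub, dc1]; simp [Prod.add_def, sub_eq_add_neg]

theorem dlt_iff (m : ℕ) (ψ : Fn) :
    Dlt m ψ ↔ ∀ i j : ℕ, m ≤ i + j → rho (d1 ^ i * d2 ^ j) ψ = 0 := by
  unfold Dlt
  simp only [df_eq]

theorem kill {a b : GA} {ψ : Fn} (h : rho a ψ = 0) (hab : a ∣ b) : rho b ψ = 0 := by
  obtain ⟨c, rfl⟩ := hab
  rw [mul_comm, map_mul, Module.End.mul_apply, h, map_zero]

theorem c1_eq : c1 = (1 + tt (-1, 0)) * d1 := by
  have h : tt (-1, 0) * tt (1, 0) = 1 := by rw [← tt_add, ← tt_zero]; rfl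
  rw [c1, d1]; linear_combination -h

theorem c2_eq : c2 = (1 + tt (0, -1)) * d2 := by
  have h : tt (0, -1) * tt (0, 1) = 1 := by rw [← tt_add, ← tt_zero]; rfl
  rw [c2, d2]; linear_combination -h

instance charGA : CharP GA 3 :=
  charP_of_injective_algebraMap (R := ZMod 3) (algebraMap (ZMod 3) GA).injective 3

theorem frob (v : ℤ × ℤ) (N : ℕ) : (tt v - 1) ^ 3 ^ N = tt ((3 ^ N : ℤ) • v) - 1 := by
  have : Fact (Nat.Prime 3) := ⟨Nat.prime_three⟩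
  rw [sub_pow_char_pow, one_pow, tt_pow, ← natCast_zsmul]
  push_cast
  rfl

theorem per (N : ℕ) (ψ : Fn) (h : ∀ v w, ψ (v + (3 ^ N : ℤ) • w) = ψ v) : ∃ m, Dlt m ψ := by
  refine ⟨3 ^ N + 3 ^ N, (dlt_iff _ _).2 fun i j hij => ?_⟩
  have k : ∀ v, rho ((tt v - 1) ^ 3 ^ N) ψ = 0 := fun v => by
    funext w
    rw [frob, rho_sub_one, h, sub_self]; rfl
  by_cases hi : 3 ^ N ≤ i
  · exact kill (k (1, 0)) ((pow_dvd_pow d1 hi).mul_right _)
  · exact kill (k (0, 1)) ((pow_dvd_pow d2 (by omega)).mul_left _)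

/-- periods -/
def pers (ψ : Fn) : AddSubgroup (ℤ × ℤ) where
  carrier := {u | ∀ v, ψ (v + u) = ψ v}
  zero_mem' := fun v => by rw [add_zero]
  add_mem' := fun {a b} ha hb v => by rw [← add_assoc, hb, ha]
  neg_mem' := fun {a} ha v => by rw [← ha (v + -a), neg_add_cancel_right]

theorem per' (N m : ℕ) (ψ : Fn) (h : Dlt m ψ) (hm : m ≤ 3 ^ N) (v w : ℤ × ℤ) :
    ψ (v + (3 ^ N : ℤ) • w) = ψ v := by
  rw [dlt_iff] at h
  have k : ∀ u, rho ((tt u - 1) ^ 3 ^ N) ψ = 0 → (3 ^ N : ℤ) • u ∈ pers ψ := fun u hu v => by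
    have := congrFun hu v
    rwa [frob, rho_sub_one, Pi.zero_apply, sub_eq_zero] at this
  have h1 := k (1, 0) (by simpa [d1] using h (3 ^ N) 0 (by omega))
  have h2 := k (0, 1) (by simpa [d2] using h 0 (3 ^ N) (by omega))
  have e : (3 ^ N : ℤ) • w = w.1 • (3 ^ N : ℤ) • ((1, 0) : ℤ × ℤ) +
      w.2 • (3 ^ N : ℤ) • ((0, 1) : ℤ × ℤ) := by
    ext <;> simp [mul_comm]
  rw [e]
  exact (pers ψ).add_mem ((pers ψ).zsmul_mem h1 _) ((pers ψ).zsmul_mem h2 _) v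

theorem cc_eq (i j : ℕ) : c1 ^ i * c2 ^ j =
    (1 + tt (-1, 0)) ^ i * (1 + tt (0, -1)) ^ j * (d1 ^ i * d2 ^ j) := by
  rw [c1_eq, c2_eq, mul_pow, mul_pow]; ring

theorem zero (m i j : ℕ) (ψ : Fn) (h : Dlt m ψ) (hm : m ≤ i + j) : cof i j ψ = 0 := by
  rw [cof_eq, kill ((dlt_iff _ _).1 h i j hm) (by rw [cc_eq]; exact Dvd.intro_left _ rfl)]
  rfl

theorem two_pow (v : ℤ × ℤ) (χ : Fn) (h : ∀ v w, χ (v + w) = χ v) (i : ℕ) :
    rho ((1 + tt v) ^ i) χ = (2 : ZMod 3) ^ i • χ := by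
  induction i with
  | zero => simp
  | succ i ih =>
    have e : rho (1 + tt v) χ = (2 : ZMod 3) • χ := by
      funext w
      rw [map_add, map_one, LinearMap.add_apply, Pi.add_apply, rho_tt, h, two_smul]; rfl
    rw [pow_succ, map_mul, Module.End.mul_apply, e, map_smul, ih, smul_smul, pow_succ']

theorem down (m : ℕ) (ψ : Fn) (h : Dlt (m + 1) ψ) (hc : ∀ i j, i + j = m → cof i j ψ = 0) :
    Dlt m ψ := by
  rw [dlt_iff] at h ⊢
  intro i j hij
  rcases hij.eq_or_lt with e | e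
  · have h1 : Dlt 1 (rho (d1 ^ i * d2 ^ j) ψ) := (dlt_iff _ _).2 fun a b hab => by
      rw [← Module.End.mul_apply, ← map_mul]
      have e' : d1 ^ a * d2 ^ b * (d1 ^ i * d2 ^ j) = d1 ^ (a + i) * d2 ^ (b + j) := by ring
      rw [e']
      exact h _ _ (by omega)
    have h2 : ∀ v w, rho (d1 ^ i * d2 ^ j) ψ (v + w) = rho (d1 ^ i * d2 ^ j) ψ v := fun v w => by
      simpa using per' 0 1 _ h1 (by norm_num) v w
    have h3 := hc i j e.symm
    rw [cof_eq, cc_eq, map_mul, map_mul, Module.End.mul_apply, Module.End.mul_apply,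
      two_pow _ _ h2, map_smul, two_pow _ _ h2, smul_smul, Pi.smul_apply, smul_eq_mul] at h3
    have h4 : (2 : ZMod 3) ≠ 0 := by decide
    have : Fact (Nat.Prime 3) := ⟨Nat.prime_three⟩
    have h5 := (mul_eq_zero.1 h3).resolve_left (mul_ne_zero (pow_ne_zero _ h4) (pow_ne_zero _ h4))
    funext w
    rw [← zero_add w, h2, h5]; rfl
  · exact h i j e

/-- functoriality -/
def mp (e : ℤ × ℤ →+ ℤ × ℤ) : GA →ₐ[ZMod 3] GA :=
  AddMonoidAlgebra.lift (ZMod 3) GA (ℤ × ℤ)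
    ((AddMonoidAlgebra.of (ZMod 3) (ℤ × ℤ)).comp (AddMonoidHom.toMultiplicative e))

theorem mp_tt (e : ℤ × ℤ →+ ℤ × ℤ) (v : ℤ × ℤ) : mp e (tt v) = tt (e v) := by
  unfold mp tt
  rw [AddMonoidAlgebra.lift_of]
  rfl

theorem rho_comp (e : ℤ × ℤ →+ ℤ × ℤ) (a : GA) (ψ : Fn) (w : ℤ × ℤ) :
    rho a (fun w => ψ (e w)) w = rho (mp e a) ψ (e w) := by
  induction a using AddMonoidAlgebra.induction_on with
  | of v =>
    change rho (tt v) _ _ = rho (mp e (tt v)) _ _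
    rw [mp_tt, rho_tt, rho_tt, map_add]
  | add a b ha hb => simp only [map_add, LinearMap.add_apply, Pi.add_apply, ha, hb]
  | smul r a ha => simp only [map_smul, LinearMap.smul_apply, Pi.smul_apply, ha]

def e1 : ℤ × ℤ →+ ℤ × ℤ := AddMonoidHom.prodMap (-AddMonoidHom.id ℤ) (AddMonoidHom.id ℤ)
def e2 : ℤ × ℤ →+ ℤ × ℤ := AddMonoidHom.prodMap (AddMonoidHom.id ℤ) (-AddMonoidHom.id ℤ)
def e3 : ℤ × ℤ →+ ℤ × ℤ := (AddEquiv.prodComm : ℤ × ℤ ≃+ ℤ × ℤ).toAddMonoidHom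

theorem neg_pow_apply (i : ℕ) (a : GA) (ψ : Fn) (w : ℤ × ℤ) :
    rho ((-1) ^ i * a) ψ w = (-1) ^ i * rho a ψ w := by
  rcases neg_one_pow_eq_or ℤ i with h | h
  · have h1 : ((-1 : GA)) ^ i = 1 := by exact_mod_cast congrArg (Int.cast : ℤ → GA) h
    have h2 : ((-1 : ZMod 3)) ^ i = 1 := by exact_mod_cast congrArg (Int.cast : ℤ → ZMod 3) h
    rw [h1, h2, one_mul, one_mul]
  · have h1 : ((-1 : GA)) ^ i = -1 := by exact_mod_cast congrArg (Int.cast : ℤ → GA) h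
    have h2 : ((-1 : ZMod 3)) ^ i = -1 := by exact_mod_cast congrArg (Int.cast : ℤ → ZMod 3) h
    rw [h1, h2, neg_one_mul, neg_one_mul, map_neg]; rfl

theorem dlt_comp (e : ℤ × ℤ →+ ℤ × ℤ) (m : ℕ) (ψ : Fn)
    (h : ∀ i j, m ≤ i + j → rho (mp e d1 ^ i * mp e d2 ^ j) ψ = 0) : Dlt m fun w => ψ (e w) :=
  (dlt_iff _ _).2 fun i j hij => by
    funext w
    rw [rho_comp, map_mul, map_pow, map_pow, h i j hij]; rfl

theorem rowDEG : RowDEG where
  per := per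
  per' := per'
  zero := zero
  down := down
  neg1 i j ψ := by
    have a : mp e1 c1 = -1 * c1 := by
      rw [c1, map_sub, mp_tt, mp_tt, neg_one_mul, neg_sub]; rfl
    have b : mp e1 c2 = c2 := by rw [c2, map_sub, mp_tt, mp_tt]; rfl
    have := rho_comp e1 (c1 ^ i * c2 ^ j) ψ 0
    rw [map_mul (mp e1), map_pow (mp e1), map_pow (mp e1), a, b, mul_pow, mul_assoc,
      neg_pow_apply, map_zero] at this
    rw [cof_eq, cof_eq]; exact this
  neg2 i j ψ := by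
    have a : mp e2 c1 = c1 := by rw [c1, map_sub, mp_tt, mp_tt]; rfl
    have b : mp e2 c2 = -1 * c2 := by
      rw [c2, map_sub, mp_tt, mp_tt, neg_one_mul, neg_sub]; rfl
    have := rho_comp e2 (c1 ^ i * c2 ^ j) ψ 0
    rw [map_mul (mp e2), map_pow (mp e2), map_pow (mp e2), a, b, mul_pow, mul_left_comm,
      neg_pow_apply, map_zero] at this
    rw [cof_eq, cof_eq]; exact this
  swap i j ψ := by
    have a : mp e3 c1 = c2 := by rw [c1, map_sub, mp_tt, mp_tt]; rfl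
    have b : mp e3 c2 = c1 := by rw [c2, map_sub, mp_tt, mp_tt]; rfl
    have := rho_comp e3 (c1 ^ i * c2 ^ j) ψ 0
    rw [map_mul (mp e3), map_pow (mp e3), map_pow (mp e3), a, b, mul_comm (c2 ^ i),
      map_zero] at this
    rw [cof_eq, cof_eq]; exact this
  dneg m ψ h := by
    rw [dlt_iff] at h
    have n1 : d1 ∣ tt (-1, 0) - 1 := by
      have h : tt (-1, 0) * tt (1, 0) = 1 := by rw [← tt_add, ← tt_zero]; rfl
      exact ⟨-tt (-1, 0), by rw [d1]; linear_combination h⟩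
    have n2 : d2 ∣ tt (0, -1) - 1 := by
      have h : tt (0, -1) * tt (0, 1) = 1 := by rw [← tt_add, ← tt_zero]; rfl
      exact ⟨-tt (0, -1), by rw [d2]; linear_combination h⟩
    refine ⟨dlt_comp e1 m ψ fun i j hij => kill (h i j hij) ?_,
      dlt_comp e2 m ψ fun i j hij => kill (h i j hij) ?_,
      dlt_comp e3 m ψ fun i j hij => kill (h j i (by omega)) ?_⟩
    · have a : mp e1 d1 = tt (-1, 0) - 1 := by rw [d1, map_sub, mp_tt, map_one]; rfl
      have b : mp e1 d2 = d2 := by rw [d2, map_sub, mp_tt, map_one]; rfl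
      rw [a, b]
      exact mul_dvd_mul_right (pow_dvd_pow_of_dvd n1 i) _
    · have a : mp e2 d1 = d1 := by rw [d1, map_sub, mp_tt, map_one]; rfl
      have b : mp e2 d2 = tt (0, -1) - 1 := by rw [d2, map_sub, mp_tt, map_one]; rfl
      rw [a, b]
      exact mul_dvd_mul_left _ (pow_dvd_pow_of_dvd n2 j)
    · have a : mp e3 d1 = d2 := by rw [d1, map_sub, mp_tt, map_one]; rfl
      have b : mp e3 d2 = d1 := by rw [d2, map_sub, mp_tt, map_one]; rfl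
      rw [a, b, mul_comm]

end

end Pool.Agent.MP_5f72fe_nt.H65
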