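import Pool.Agent.MP_5f72fe_nt.H3.SpecC

/-! Linear algebra over the rationals and modulo `3`. -/

set_option autoImplicit false

namespace Pool.Agent.MP_5f72fe_nt.H65

open Pool.Agent.MP_5f72fe_nt.H3
open scoped PowerSeries

theorem ex_dual (x : ℂ) (hx : x ≠ 0) : ∃ f : ℂ →ₗ[ℚ] ℚ, f x ≠ 0 := by
  by_contra h
  push Not at h
  exact hx ((Module.forall_dual_apply_eq_zero_iff ℚ x).1 h)

theorem clear_den {ι : Type} [Finite ι] (y : ι → ℚ) :
    ∃ (D : ℤ) (z : ι → ℤ), D ≠ 0 ∧ ∀ i, (z i : ℚ) = D * y i := by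
  obtain ⟨D, hD⟩ := IsLocalization.exist_integer_multiples_of_finite (nonZeroDivisors ℤ) y
  choose z hz using hD
  refine ⟨D, z, nonZeroDivisors.coe_ne_zero D, fun i => ?_⟩
  have := hz i
  rw [zsmul_eq_mul] at this
  exact this

theorem dual_sum {ι : Type} [Fintype ι] (f : ℂ →ₗ[ℚ] ℚ) (x : ι → ℂ) (c : ι → ℤ) :
    f (∑ i, x i * (c i : ℂ)) = ∑ i, f (x i) * (c i : ℚ) := by
  rw [map_sum]
  refine Finset.sum_congr rfl fun i _ => ?_
  rw [mul_comm, ← zsmul_eq_mul, map_zsmul, zsmul_eq_mul, mul_comm]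

theorem div3 {ι : Type} [Fintype ι] (b : ι → ℕ → ℤ) (S : Set ℕ) (i0 : ι) :
    ∀ (N : ℕ) (z : ι → ℤ), (z i0).natAbs = N → z i0 ≠ 0 → (∀ n ∈ S, ∑ i, z i * b i n = 0) →
      ∃ z : ι → ℤ, (∃ i, ¬ 3 ∣ z i) ∧ ∀ n ∈ S, ∑ i, z i * b i n = 0 := by
  intro N
  induction N using Nat.strong_induction_on with
  | _ N ih =>
    intro z hN h0 hz
    by_cases h : ∃ i, ¬ 3 ∣ z i
    · exact ⟨z, h, hz⟩
    · push Not at h
      choose z' hz' using h
      have e := hz' i0
      refine ih (z' i0).natAbs (by omega) z' rfl (by omega) fun n hn => ?_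
      have h3 : 3 * ∑ i, z' i * b i n = 0 := by
        rw [Finset.mul_sum, ← hz n hn]
        exact Finset.sum_congr rfl fun i _ => by rw [hz' i, mul_assoc]
      omega

theorem rat_down (ι : Type) [Fintype ι] (b : ι → ℕ → ℤ) (S : Set ℕ) (x : ι → ℂ) (hx : x ≠ 0)
    (h : ∀ n ∈ S, ∑ i, x i * (b i n : ℂ) = 0) :
    ∃ z : ι → ℤ, (∃ i, ¬ 3 ∣ z i) ∧ ∀ n ∈ S, ∑ i, z i * b i n = 0 := by
  obtain ⟨i0, hi0⟩ := Function.ne_iff.1 hx
  obtain ⟨f, hf⟩ := ex_dual _ hi0
  obtain ⟨D, z, hD, hz⟩ := clear_den fun i => f (x i)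
  refine div3 b S i0 _ z rfl (fun h0 => ?_) fun n hn => ?_
  · have := hz i0
    rw [h0, Int.cast_zero] at this
    exact mul_ne_zero (Int.cast_ne_zero.2 hD) hf this.symm
  · have h1 := dual_sum f x fun i => b i n
    rw [h n hn, map_zero] at h1
    have h2 : ((∑ i, z i * b i n : ℤ) : ℚ) = D * ∑ i, f (x i) * (b i n : ℚ) := by
      push_cast
      rw [Finset.mul_sum]
      exact Finset.sum_congr rfl fun i _ => by rw [hz i, mul_assoc]
    rw [← h1, mul_zero] at h2
    exact_mod_cast h2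

theorem rat_rat (ι : Type) [Fintype ι] (b : ι → ℕ → ℤ) (w : ℕ → ℤ) (x : ι → ℂ)
    (h : ∀ n, ∑ i, x i * (b i n : ℂ) = w n) :
    ∃ (M : ℤ) (z : ι → ℤ), M ≠ 0 ∧ ∀ n, ∑ i, z i * b i n = M * w n := by
  obtain ⟨f, hf⟩ := ex_dual 1 one_ne_zero
  obtain ⟨D, z, hD, hz⟩ := clear_den fun o : Option ι => o.elim (f 1) fun i => f (x i)
  have h0 : (z none : ℚ) = D * f 1 := hz none
  refine ⟨z none, fun i => z (some i), fun h1 => ?_, fun n => ?_⟩
  · rw [h1, Int.cast_zero] at h0
    exact mul_ne_zero (Int.cast_ne_zero.2 hD) hf h0.symm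
  · have h1 := dual_sum f x fun i => b i n
    have h3 : f (w n) = f 1 * w n := by
      rw [← mul_one (w n : ℂ), ← zsmul_eq_mul, map_zsmul, zsmul_eq_mul, mul_comm]
    rw [h n, h3] at h1
    have h2 : ((∑ i, z (some i) * b i n : ℤ) : ℚ) = D * ∑ i, f (x i) * (b i n : ℚ) := by
      push_cast
      rw [Finset.mul_sum]
      exact Finset.sum_congr rfl fun i _ => by rw [hz (some i), mul_assoc]; rfl
    rw [← h1, ← mul_assoc, ← h0] at h2
    exact_mod_cast h2

theorem sup_pow (hI : RowINT) (n : ℕ) :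
    Sup 12 (4 * (n + 1)) (Kk ^ (n + 1)) ∧ PowerSeries.coeff (4 * (n + 1)) (Kk ^ (n + 1)) = 1 := by
  induction n with
  | zero => simpa using hI.supK
  | succ n ih =>
    have h := hI.supMul 12 _ _ _ _ ih.1 hI.supK.1
    rw [ih.2, hI.supK.2, mul_one, ← pow_succ] at h
    have e : 4 * (n + 1 + 1) = 4 * (n + 1) + 4 := by ring
    rw [e]
    exact h

theorem sup_zero {r n : ℕ} {F : ℤ⟦X⟧} (h : Sup 12 r F) (hn : ∀ t, n ≠ r + 12 * t) :
    PowerSeries.coeff n F = 0 := by
  by_contra h0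
  obtain ⟨t, ht⟩ := h n h0
  exact hn t ht

theorem coeff_yb (hI : RowINT) (k i n : ℕ) :
    PowerSeries.coeff n (red (yb k (i, false))) =
      ((PowerSeries.coeff n (Kk ^ (3 * i + 1) * Tm 0) +
        PowerSeries.coeff n (Kk ^ (3 * i + 1) * Tm 1) : ℤ) : ZMod 3) ∧
    PowerSeries.coeff n (red (yb k (i, true))) =
      ((PowerSeries.coeff n (Kk ^ (3 * i + 1) * Pm 0) +
        PowerSeries.coeff n (Kk ^ (3 * i + 1) * Pm 1) : ℤ) : ZMod 3) := by
  have key : ∀ (m : ℕ) (F G H : ℤ⟦X⟧), PowerSeries.coeff n (red (Aa ^ m * F * (G + H))) =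
      ((PowerSeries.coeff n (F * G) + PowerSeries.coeff n (F * H) : ℤ) : ZMod 3) := by
    intro m F G H
    have e : red (Aa ^ m * F * (G + H)) = red (F * G + F * H) := by
      have h1 := hI.redA
      unfold red at h1 ⊢
      rw [mul_assoc, map_mul, map_pow, h1, one_pow, one_mul, mul_add]
    rw [e, red, PowerSeries.coeff_map, map_add]
    rfl
  exact ⟨key _ _ _ _, key _ _ _ _⟩

theorem rat_ind (hI : RowINT) (k r : ℕ) (z : Fin r × Bool → ZMod 3)
    (h : ∀ n, ∑ p : Fin r × Bool, z p * PowerSeries.coeff n (red (yb k (p.1, p.2))) = 0) :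
    z = 0 := by
  have S := fun i : ℕ => sup_pow hI (3 * i)
  have T0 := fun i : ℕ => hI.supMul 12 _ _ _ _ (S i).1 hI.supT.1
  have T1 := fun i : ℕ => hI.supMul 12 _ _ _ _ (S i).1 hI.supT.2.1
  have P0 := fun i : ℕ => hI.supMul 12 _ _ _ _ (S i).1 hI.supP.1
  have P1 := fun i : ℕ => hI.supMul 12 _ _ _ _ (S i).1 hI.supP.2.1
  have main : ∀ (m : ℕ) (i : Fin r), i.1 = m → z (i, false) = 0 ∧ z (i, true) = 0 := by
    intro m
    induction m using Nat.strong_induction_on with
    | _ m ih =>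
      intro i hi
      have one : ∀ n, n ≤ 4 * (3 * m + 1) + 3 →
          z (i, true) * PowerSeries.coeff n (red (yb k (m, true))) +
            z (i, false) * PowerSeries.coeff n (red (yb k (m, false))) = 0 := by
        intro n hn
        have h1 := h n
        rw [Fintype.sum_prod_type, Finset.sum_eq_single i] at h1
        · rw [Fintype.sum_bool] at h1
          rw [← hi]; exact h1
        · intro j _ hj
          rw [Fintype.sum_bool]
          rcases lt_trichotomy j.1 m with hl | hl | hl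
          · rw [(ih j hl j rfl).1, (ih j hl j rfl).2, zero_mul, zero_mul, add_zero]
          · exact absurd (Fin.ext (hl.trans hi.symm)) hj
          · rw [(coeff_yb hI k j n).1, (coeff_yb hI k j n).2,
              sup_zero (T0 j).1 fun t => by omega, sup_zero (T1 j).1 fun t => by omega,
              sup_zero (P0 j).1 fun t => by omega, sup_zero (P1 j).1 fun t => by omega]
            simp
        · intro h2; exact absurd (Finset.mem_univ i) h2
      have a := one (4 * (3 * m + 1) + 0) (by omega)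
      rw [(coeff_yb hI k m _).1, (coeff_yb hI k m _).2, (T0 m).2, (S m).2, hI.supT.2.2.1,
        sup_zero (T1 m).1 fun t => by omega, sup_zero (P0 m).1 fun t => by omega,
        sup_zero (P1 m).1 fun t => by omega] at a
      have a' : z (i, false) = 0 := by simpa using a
      have b := one (4 * (3 * m + 1) + 3) le_rfl
      rw [(coeff_yb hI k m _).2, (P1 m).2, (S m).2, hI.supP.2.2,
        sup_zero (P0 m).1 fun t => by omega, a', zero_mul, add_zero] at b
      have e : ((0 + 1 * 4 : ℤ) : ZMod 3) = 1 := by decide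
      rw [e, mul_one] at b
      exact ⟨a', b⟩
  funext p
  obtain ⟨i, c⟩ := p
  cases c
  · exact (main i i rfl).1
  · exact (main i i rfl).2

theorem rowRAT : OfRAT := fun hI => ⟨rat_down, rat_rat, rat_ind hI⟩

end Pool.Agent.MP_5f72fe_nt.H65
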